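import Mathlib

/-!
Elementary bound for Kloosterman sums to an arbitrary modulus `c`
(fourth moment method of Kloosterman, all moduli at once):
`phi(c) |K(m,n;c)|^4 <= 2 gcd(m,n,c) tau(c)^2 c^4`.
-/

namespace D33K

open Finset BigOperators

/-- the Kloosterman sum modulo `c` -/
noncomputable def Kl (c : ℕ) [NeZero c] (m n : ZMod c) : ℂ :=
  ∑ x : (ZMod c)ˣ, ZMod.stdAddChar (m * (x : ZMod c) + n * ((x⁻¹ : (ZMod c)ˣ) : ZMod c))

variable {c : ℕ} [NeZero c]

/-- number of solutions of `N • x = b` -/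
lemma card_nsmul_eq_le (N : ℕ) (hN : 0 < N) (b : ZMod c) :
    ((univ : Finset (ZMod c)).filter (fun x => N • x = b)).card ≤ N := by
  classical
  rcases ((univ : Finset (ZMod c)).filter (fun x => N • x = b)).eq_empty_or_nonempty with h | h
  · rw [h]; simp
  · obtain ⟨x0, hx0⟩ := h
    have hx0' : N • x0 = b := by simpa using hx0
    refine le_trans (Finset.card_le_card_of_injOn (t := (univ : Finset (ZMod c)).filter
      (fun x => N • x = 0)) (fun x => x - x0) ?_ ?_) ?_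
    · intro x hx
      have hx' : N • x = b := by simpa using hx
      have h0 : N • (x - x0) = 0 := by rw [nsmul_sub, hx', hx0', sub_self]
      exact Finset.mem_coe.mpr (Finset.mem_filter.mpr ⟨Finset.mem_univ _, h0⟩)
    · intro x _ y _ hxy
      simpa using hxy
    · exact IsAddCyclic.card_nsmul_eq_zero_le hN

lemma gcd_nsmul_eq_zero (t A : ZMod c) (h : A * t = 0) : (Nat.gcd t.val c) • A = 0 := by
  have hb := Nat.gcd_eq_gcd_ab t.val c
  have h1 : ((Nat.gcd t.val c : ℕ) : ZMod c) = t * ((Nat.gcdA t.val c : ℤ) : ZMod c) := by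
    have := congrArg (fun z : ℤ => (z : ZMod c)) hb
    push_cast at this
    rw [this]
    simp
  rw [nsmul_eq_mul, h1]
  calc t * ((Nat.gcdA t.val c : ℤ) : ZMod c) * A = (A * t) * ((Nat.gcdA t.val c : ℤ) : ZMod c) := by ring
    _ = 0 := by rw [h, zero_mul]

lemma gcd_val_pos (t : ZMod c) : 0 < Nat.gcd t.val c :=
  Nat.gcd_pos_of_pos_right _ (Nat.pos_of_ne_zero (NeZero.ne c))

/-- multiples of a divisor -/
lemma card_dvd_le (d : ℕ) (hd : d ∣ c) :
    ((univ : Finset (ZMod c)).filter (fun x => d ∣ x.val)).card ≤ c / d := by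
  classical
  have hc : 0 < c := Nat.pos_of_ne_zero (NeZero.ne c)
  have hd0 : 0 < d := Nat.pos_of_dvd_of_pos hd hc
  refine le_trans (Finset.card_le_card ?_) (card_nsmul_eq_le (c := c) (c / d)
    (Nat.div_pos (Nat.le_of_dvd hc hd) hd0) 0)
  intro x hx
  simp only [mem_filter, mem_univ, true_and] at hx ⊢
  obtain ⟨k, hk⟩ := hx
  have h1 : x = ((d * k : ℕ) : ZMod c) := by
    rw [← hk]; simp
  rw [h1, nsmul_eq_mul, ← Nat.cast_mul]
  rw [ZMod.natCast_eq_zero_iff]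
  refine ⟨k, ?_⟩
  rw [← mul_assoc, Nat.div_mul_cancel hd]

lemma sum_gcd_le : ∑ x : ZMod c, Nat.gcd x.val c ≤ c * c.divisors.card := by
  classical
  have hc : 0 < c := Nat.pos_of_ne_zero (NeZero.ne c)
  calc ∑ x : ZMod c, Nat.gcd x.val c
      ≤ ∑ x : ZMod c, ∑ d ∈ c.divisors, (if d ∣ x.val then d else 0) := by
        refine Finset.sum_le_sum fun x _ => ?_
        have hmem : Nat.gcd x.val c ∈ c.divisors := by
          rw [Nat.mem_divisors]; exact ⟨Nat.gcd_dvd_right _ _, hc.ne'⟩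
        refine le_trans (le_of_eq ?_) (Finset.single_le_sum (f := fun d => if d ∣ x.val then d else 0)
          (fun _ _ => Nat.zero_le _) hmem)
        simp [Nat.gcd_dvd_left]
    _ = ∑ d ∈ c.divisors, ∑ x : ZMod c, (if d ∣ x.val then d else 0) := Finset.sum_comm
    _ ≤ ∑ d ∈ c.divisors, c := by
        refine Finset.sum_le_sum fun d hd => ?_
        have hdc : d ∣ c := Nat.dvd_of_mem_divisors hd
        rw [← Finset.sum_filter, Finset.sum_const, smul_eq_mul]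
        calc ((univ : Finset (ZMod c)).filter (fun x => d ∣ x.val)).card * d
            ≤ (c / d) * d := Nat.mul_le_mul_right _ (card_dvd_le d hdc)
          _ = c := Nat.div_mul_cancel hdc
    _ = c * c.divisors.card := by rw [Finset.sum_const, smul_eq_mul, mul_comm]

/-- quadruples of units -/
abbrev Q4 (c : ℕ) := (ZMod c)ˣ × (ZMod c)ˣ × (ZMod c)ˣ × (ZMod c)ˣ

def fA (q : Q4 c) : ZMod c := (q.1 : ZMod c) + q.2.1 - q.2.2.1 - q.2.2.2

def fB (q : Q4 c) : ZMod c :=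
  ((q.1⁻¹ : (ZMod c)ˣ) : ZMod c) + ((q.2.1⁻¹ : (ZMod c)ˣ) : ZMod c)
    - ((q.2.2.1⁻¹ : (ZMod c)ˣ) : ZMod c) - ((q.2.2.2⁻¹ : (ZMod c)ˣ) : ZMod c)

lemma key_identity (x1 x2 x3 x4 : (ZMod c)ˣ)
    (h1 : (x1 : ZMod c) + x2 - x3 - x4 = 0)
    (h2 : ((x1⁻¹ : (ZMod c)ˣ) : ZMod c) + ((x2⁻¹ : (ZMod c)ˣ) : ZMod c)
      - ((x3⁻¹ : (ZMod c)ˣ) : ZMod c) - ((x4⁻¹ : (ZMod c)ˣ) : ZMod c) = 0) :
    ((x1 : ZMod c) + x2) * ((x3 : ZMod c) - x1) * ((x2 : ZMod c) - x3) = 0 := by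
  have e1 : (x1 : ZMod c) * ((x1⁻¹ : (ZMod c)ˣ) : ZMod c) = 1 := Units.mul_inv x1
  have e2 : (x2 : ZMod c) * ((x2⁻¹ : (ZMod c)ˣ) : ZMod c) = 1 := Units.mul_inv x2
  have e3 : (x3 : ZMod c) * ((x3⁻¹ : (ZMod c)ˣ) : ZMod c) = 1 := Units.mul_inv x3
  have e4 : (x4 : ZMod c) * ((x4⁻¹ : (ZMod c)ˣ) : ZMod c) = 1 := Units.mul_inv x4
  set y1 := ((x1⁻¹ : (ZMod c)ˣ) : ZMod c)
  set y2 := ((x2⁻¹ : (ZMod c)ˣ) : ZMod c)
  set y3 := ((x3⁻¹ : (ZMod c)ˣ) : ZMod c)
  set y4 := ((x4⁻¹ : (ZMod c)ˣ) : ZMod c)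
  set a1 := (x1 : ZMod c)
  set a2 := (x2 : ZMod c)
  set a3 := (x3 : ZMod c)
  set a4 := (x4 : ZMod c)
  have ha4 : a4 = a1 + a2 - a3 := by linear_combination -h1
  -- s a3 a4 = s a1 a2
  have hs : (a1 + a2) * (a3 * a4 - a1 * a2) = 0 := by
    have t1 : a1 * a2 * (y1 + y2) = a1 + a2 := by
      linear_combination a2 * e1 + a1 * e2
    have t2 : a3 * a4 * (y3 + y4) = a3 + a4 := by
      linear_combination a4 * e3 + a3 * e4
    have t3 : y1 + y2 = y3 + y4 := by linear_combination h2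
    have t4 : a3 + a4 = a1 + a2 := by linear_combination -h1
    calc (a1 + a2) * (a3 * a4 - a1 * a2)
        = a3 * a4 * (a1 + a2) - a1 * a2 * (a3 + a4) := by rw [t4]; ring
      _ = a3 * a4 * (a1 * a2 * (y1 + y2)) - a1 * a2 * (a3 * a4 * (y3 + y4)) := by rw [t1, t2]
      _ = 0 := by rw [t3]; ring
  rw [ha4] at hs
  linear_combination hs

lemma card_sol_le :
    ((univ : Finset (Q4 c)).filter (fun q => fA q = 0 ∧ fB q = 0)).card
      ≤ 2 * (c * c.divisors.card) ^ 2 := by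
  classical
  -- target triples (B, C, x1)
  let T : Finset (ZMod c × ZMod c × ZMod c) :=
    univ.filter (fun t => (2 * t.2.2 + (t.1 + t.2.1)) * t.1 * t.2.1 = 0)
  have hle : ((univ : Finset (Q4 c)).filter (fun q => fA q = 0 ∧ fB q = 0)).card ≤ T.card := by
    refine Finset.card_le_card_of_injOn
      (fun q => ((q.2.2.1 : ZMod c) - q.1, (q.2.1 : ZMod c) - q.2.2.1, (q.1 : ZMod c))) ?_ ?_
    · rintro ⟨x1, x2, x3, x4⟩ hq
      have hq := (Finset.mem_filter.mp (Finset.mem_coe.mp hq)).2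
      simp only [fA, fB] at hq
      have hk := key_identity x1 x2 x3 x4 hq.1 hq.2
      refine Finset.mem_coe.mpr (Finset.mem_filter.mpr ⟨Finset.mem_univ _, ?_⟩)
      linear_combination hk
    · rintro ⟨x1, x2, x3, x4⟩ hq ⟨z1, z2, z3, z4⟩ hz h
      have hq := (Finset.mem_filter.mp (Finset.mem_coe.mp hq)).2
      have hz := (Finset.mem_filter.mp (Finset.mem_coe.mp hz)).2
      simp only [fA, fB] at hq hz
      simp only [Prod.mk.injEq] at h
      obtain ⟨h1, h2, h3⟩ := h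
      have e1 : x1 = z1 := Units.ext h3
      have e3 : x3 = z3 := by
        apply Units.ext
        rw [h3] at h1
        linear_combination h1
      have e2 : x2 = z2 := by
        apply Units.ext
        rw [e3] at h2
        linear_combination h2
      have e4 : x4 = z4 := by
        apply Units.ext
        have a1 := hq.1
        have a2 := hz.1
        rw [e1, e2, e3] at a1
        linear_combination a2 - a1
      rw [e1, e2, e3, e4]
  refine hle.trans ?_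
  -- count
  have hcount : T.card ≤ ∑ B : ZMod c, ∑ C : ZMod c, 2 * (Nat.gcd B.val c * Nat.gcd C.val c) := by
    have h1 : T.card = ∑ B : ZMod c, ∑ C : ZMod c,
        ((univ : Finset (ZMod c)).filter (fun x => (2 * x + (B + C)) * B * C = 0)).card := by
      simp only [T]
      rw [Finset.card_filter, ← Finset.univ_product_univ, Finset.sum_product]
      refine Finset.sum_congr rfl fun B _ => ?_
      rw [← Finset.univ_product_univ, Finset.sum_product]
      refine Finset.sum_congr rfl fun C _ => ?_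
      rw [Finset.card_filter]
    rw [h1]
    refine Finset.sum_le_sum fun B _ => Finset.sum_le_sum fun C _ => ?_
    have hpos : 0 < 2 * (Nat.gcd B.val c * Nat.gcd C.val c) := by
      have := gcd_val_pos B
      have := gcd_val_pos C
      positivity
    refine le_trans (Finset.card_le_card ?_) (card_nsmul_eq_le (c := c)
      (2 * (Nat.gcd B.val c * Nat.gcd C.val c)) hpos
      (-((Nat.gcd B.val c * Nat.gcd C.val c) • (B + C))))
    intro x hx
    simp only [mem_filter, mem_univ, true_and] at hx ⊢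
    have g1 := gcd_nsmul_eq_zero C ((2 * x + (B + C)) * B) hx
    have g2 : ((Nat.gcd C.val c) • (2 * x + (B + C))) * B = 0 := by
      rw [← g1]
      simp only [nsmul_eq_mul]; ring
    have g3 := gcd_nsmul_eq_zero B _ g2
    simp only [nsmul_eq_mul] at g3 ⊢
    push_cast at g3 ⊢
    linear_combination g3
  refine hcount.trans ?_
  have h2 : ∑ B : ZMod c, ∑ C : ZMod c, 2 * (Nat.gcd B.val c * Nat.gcd C.val c)
      = 2 * (∑ B : ZMod c, Nat.gcd B.val c) ^ 2 := by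
    rw [sq, Finset.sum_mul_sum, Finset.mul_sum]
    refine Finset.sum_congr rfl fun B _ => ?_
    rw [Finset.mul_sum]
  rw [h2]
  exact Nat.mul_le_mul_left _ (Nat.pow_le_pow_left sum_gcd_le 2)

lemma sum_char (a : ZMod c) :
    ∑ m : ZMod c, ZMod.stdAddChar (m * a) = if a = 0 then (c : ℂ) else 0 := by
  rw [AddChar.sum_mulShift a (ZMod.isPrimitive_stdAddChar c)]
  simp [ZMod.card]

lemma four_sum {α : Type*} [Fintype α] (f g : α → ℂ) :
    (∑ x, f x) * ((∑ x, f x) * ((∑ x, g x) * (∑ x, g x)))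
      = ∑ x1, ∑ x2, ∑ x3, ∑ x4, f x1 * (f x2 * (g x3 * g x4)) := by
  simp_rw [← Finset.mul_sum, ← Finset.sum_mul]

/-- expansion of the fourth power -/
lemma Kl_pow4 (m n : ZMod c) :
    ((‖Kl c m n‖ ^ 4 : ℝ) : ℂ) = ∑ q : Q4 c, ZMod.stdAddChar (m * fA q) * ZMod.stdAddChar (n * fB q) := by
  have hconj : (starRingEnd ℂ) (Kl c m n)
      = ∑ x : (ZMod c)ˣ, ZMod.stdAddChar (-(m * (x : ZMod c) + n * ((x⁻¹ : (ZMod c)ˣ) : ZMod c))) := by
    rw [Kl, map_sum]
    refine Finset.sum_congr rfl fun x _ => ?_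
    rw [AddChar.map_neg_eq_conj]
  have h4 : ((‖Kl c m n‖ ^ 4 : ℝ) : ℂ) = Kl c m n * (Kl c m n * ((starRingEnd ℂ) (Kl c m n)
      * (starRingEnd ℂ) (Kl c m n))) := by
    have h2 : ((‖Kl c m n‖ ^ 2 : ℝ) : ℂ) = Kl c m n * (starRingEnd ℂ) (Kl c m n) := by
      rw [Complex.mul_conj, Complex.normSq_eq_norm_sq]
    have : ((‖Kl c m n‖ ^ 4 : ℝ) : ℂ) = ((‖Kl c m n‖ ^ 2 : ℝ) : ℂ) * ((‖Kl c m n‖ ^ 2 : ℝ) : ℂ) := by
      push_cast; ring
    rw [this, h2]; ring
  rw [h4, hconj]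
  simp only [Kl]
  rw [four_sum]
  simp only [Fintype.sum_prod_type]
  refine Finset.sum_congr rfl fun x1 _ => Finset.sum_congr rfl fun x2 _ =>
    Finset.sum_congr rfl fun x3 _ => Finset.sum_congr rfl fun x4 _ => ?_
  simp only [← AddChar.map_add_eq_mul, fA, fB]
  congr 1
  ring

/-- the fourth moment over all frequencies -/
lemma fourth_moment :
    ∑ m : ZMod c, ∑ n : ZMod c, ‖Kl c m n‖ ^ 4
      = (c : ℝ) ^ 2 * ((univ : Finset (Q4 c)).filter (fun q => fA q = 0 ∧ fB q = 0)).card := by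
  classical
  have h : ((∑ m : ZMod c, ∑ n : ZMod c, ‖Kl c m n‖ ^ 4 : ℝ) : ℂ)
      = ((c : ℝ) ^ 2 * ((univ : Finset (Q4 c)).filter (fun q => fA q = 0 ∧ fB q = 0)).card : ℝ) := by
    rw [Complex.ofReal_sum]
    calc ∑ m : ZMod c, ((∑ n : ZMod c, ‖Kl c m n‖ ^ 4 : ℝ) : ℂ)
        = ∑ m : ZMod c, ∑ n : ZMod c, ∑ q : Q4 c,
            ZMod.stdAddChar (m * fA q) * ZMod.stdAddChar (n * fB q) := by
          refine Finset.sum_congr rfl fun m _ => ?_
          rw [Complex.ofReal_sum]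
          exact Finset.sum_congr rfl fun n _ => Kl_pow4 m n
      _ = ∑ m : ZMod c, ∑ q : Q4 c, ∑ n : ZMod c,
            ZMod.stdAddChar (m * fA q) * ZMod.stdAddChar (n * fB q) := by
          exact Finset.sum_congr rfl fun m _ => Finset.sum_comm
      _ = ∑ q : Q4 c, ∑ m : ZMod c, ∑ n : ZMod c,
            ZMod.stdAddChar (m * fA q) * ZMod.stdAddChar (n * fB q) := Finset.sum_comm
      _ = ∑ q : Q4 c, (if fA q = 0 ∧ fB q = 0 then ((c : ℂ) ^ 2) else 0) := by
          refine Finset.sum_congr rfl fun q _ => ?_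
          rw [← Finset.sum_mul_sum, sum_char, sum_char]
          by_cases h1 : fA q = 0 <;> by_cases h2 : fB q = 0 <;> simp [h1, h2, sq]
      _ = (((c : ℝ) ^ 2 * ((univ : Finset (Q4 c)).filter (fun q => fA q = 0 ∧ fB q = 0)).card : ℝ) : ℂ) := by
          rw [← Finset.sum_filter, Finset.sum_const, nsmul_eq_mul]
          push_cast
          ring
  exact_mod_cast h

lemma Kl_unit (u : (ZMod c)ˣ) (m n : ZMod c) :
    Kl c ((u : ZMod c) * m) (((u⁻¹ : (ZMod c)ˣ) : ZMod c) * n) = Kl c m n := by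
  simp only [Kl]
  rw [← Equiv.sum_comp (Equiv.mulLeft u) (fun x : (ZMod c)ˣ =>
    ZMod.stdAddChar (m * (x : ZMod c) + n * ((x⁻¹ : (ZMod c)ˣ) : ZMod c)))]
  refine Finset.sum_congr rfl fun x _ => ?_
  congr 1
  simp only [Equiv.coe_mulLeft, Units.val_mul, mul_inv_rev]
  ring

/-- the gcd of two residues and the modulus -/
def gcd3 (m n : ZMod c) : ℕ := Nat.gcd (Nat.gcd m.val n.val) c

lemma gcd3_pos (m n : ZMod c) : 0 < gcd3 m n :=
  Nat.gcd_pos_of_pos_right _ (Nat.pos_of_ne_zero (NeZero.ne c))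

lemma gcd3_nsmul (m n w : ZMod c) (h1 : w * m = 0) (h2 : w * n = 0) : (gcd3 m n) • w = 0 := by
  have hb := Nat.gcd_eq_gcd_ab (Nat.gcd m.val n.val) c
  have hb2 := Nat.gcd_eq_gcd_ab m.val n.val
  have e1 : ((gcd3 m n : ℕ) : ZMod c)
      = (m * ((Nat.gcdA m.val n.val : ℤ) : ZMod c) + n * ((Nat.gcdB m.val n.val : ℤ) : ZMod c))
        * ((Nat.gcdA (Nat.gcd m.val n.val) c : ℤ) : ZMod c) := by
    have t1 := congrArg (fun z : ℤ => (z : ZMod c)) hb
    have t2 := congrArg (fun z : ℤ => (z : ZMod c)) hb2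
    simp only [gcd3]
    push_cast at t1 t2
    rw [t1, t2]
    simp
  rw [nsmul_eq_mul, e1]
  linear_combination (((Nat.gcdA m.val n.val : ℤ) : ZMod c)
    * ((Nat.gcdA (Nat.gcd m.val n.val) c : ℤ) : ZMod c)) * h1
    + (((Nat.gcdB m.val n.val : ℤ) : ZMod c)
    * ((Nat.gcdA (Nat.gcd m.val n.val) c : ℤ) : ZMod c)) * h2

lemma fibre_le (m n m' n' : ZMod c) :
    ((univ : Finset (ZMod c)ˣ).filter (fun u : (ZMod c)ˣ => ((u : ZMod c) * m, ((u⁻¹ : (ZMod c)ˣ) : ZMod c) * n)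
      = (m', n'))).card ≤ gcd3 m n := by
  classical
  set S := (univ : Finset (ZMod c)ˣ).filter (fun u : (ZMod c)ˣ => ((u : ZMod c) * m,
    ((u⁻¹ : (ZMod c)ˣ) : ZMod c) * n) = (m', n')) with hS
  rcases S.eq_empty_or_nonempty with h | ⟨u0, hu0⟩
  · rw [h]; simp
  · have h0 := (Finset.mem_filter.mp hu0).2
    simp only [Prod.mk.injEq] at h0
    refine le_trans (Finset.card_le_card_of_injOn (t := (univ : Finset (ZMod c)).filter
      (fun x => (gcd3 m n) • x = 0)) (fun u => ((u0⁻¹ * u : (ZMod c)ˣ) : ZMod c) - 1) ?_ ?_)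
      (card_nsmul_eq_le (c := c) (gcd3 m n) (gcd3_pos m n) 0)
    · intro u hu
      have h1 := (Finset.mem_filter.mp (Finset.mem_coe.mp hu)).2
      simp only [Prod.mk.injEq] at h1
      refine Finset.mem_coe.mpr (Finset.mem_filter.mpr ⟨Finset.mem_univ _, ?_⟩)
      have ei : (u0 : ZMod c) * ((u0⁻¹ : (ZMod c)ˣ) : ZMod c) = 1 := Units.mul_inv u0
      have ej : (u : ZMod c) * ((u⁻¹ : (ZMod c)ˣ) : ZMod c) = 1 := Units.mul_inv u
      apply gcd3_nsmul
      · push_cast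
        linear_combination (((u0⁻¹ : (ZMod c)ˣ) : ZMod c)) * (h1.1 - h0.1) + m * ei
      · push_cast
        have hn : ((u⁻¹ : (ZMod c)ˣ) : ZMod c) * n = ((u0⁻¹ : (ZMod c)ˣ) : ZMod c) * n := by
          rw [h1.2, h0.2]
        linear_combination (-(u : ZMod c)) * hn + n * ej
    · intro u _ v _ huv
      have : ((u0⁻¹ * u : (ZMod c)ˣ) : ZMod c) = ((u0⁻¹ * v : (ZMod c)ˣ) : ZMod c) := by
        simpa using huv
      have := Units.ext this
      simpa using this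

/-- **Elementary bound for Kloosterman sums to an arbitrary modulus.** -/
theorem kl_bound (m n : ZMod c) :
    (Nat.totient c : ℝ) * ‖Kl c m n‖ ^ 4
      ≤ 2 * (gcd3 m n : ℝ) * (c.divisors.card : ℝ) ^ 2 * (c : ℝ) ^ 4 := by
  classical
  have hfib : (Nat.totient c : ℝ) * ‖Kl c m n‖ ^ 4
      ≤ (gcd3 m n : ℝ) * ∑ m' : ZMod c, ∑ n' : ZMod c, ‖Kl c m' n'‖ ^ 4 := by
    calc (Nat.totient c : ℝ) * ‖Kl c m n‖ ^ 4
        = ∑ u : (ZMod c)ˣ, ‖Kl c ((u : ZMod c) * m) (((u⁻¹ : (ZMod c)ˣ) : ZMod c) * n)‖ ^ 4 := by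
          simp only [Kl_unit]
          rw [Finset.sum_const, nsmul_eq_mul, Finset.card_univ, ZMod.card_units_eq_totient]
      _ = ∑ u : (ZMod c)ˣ, ∑ p : ZMod c × ZMod c,
            (if ((u : ZMod c) * m, ((u⁻¹ : (ZMod c)ˣ) : ZMod c) * n) = p
              then ‖Kl c p.1 p.2‖ ^ 4 else 0) := by
          refine Finset.sum_congr rfl fun u _ => ?_
          rw [Finset.sum_ite_eq]
          simp
      _ = ∑ p : ZMod c × ZMod c, ∑ u : (ZMod c)ˣ,
            (if ((u : ZMod c) * m, ((u⁻¹ : (ZMod c)ˣ) : ZMod c) * n) = p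
              then ‖Kl c p.1 p.2‖ ^ 4 else 0) := Finset.sum_comm
      _ ≤ ∑ p : ZMod c × ZMod c, (gcd3 m n : ℝ) * ‖Kl c p.1 p.2‖ ^ 4 := by
          refine Finset.sum_le_sum fun p _ => ?_
          rw [← Finset.sum_filter, Finset.sum_const, nsmul_eq_mul]
          refine mul_le_mul_of_nonneg_right ?_ (by positivity)
          exact_mod_cast fibre_le m n p.1 p.2
      _ = (gcd3 m n : ℝ) * ∑ m' : ZMod c, ∑ n' : ZMod c, ‖Kl c m' n'‖ ^ 4 := by
          rw [← Finset.mul_sum, Fintype.sum_prod_type]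
  refine hfib.trans ?_
  rw [fourth_moment]
  have hN : (((univ : Finset (Q4 c)).filter (fun q => fA q = 0 ∧ fB q = 0)).card : ℝ)
      ≤ 2 * ((c : ℝ) * c.divisors.card) ^ 2 := by exact_mod_cast card_sol_le (c := c)
  have hg : (0 : ℝ) ≤ gcd3 m n := by positivity
  calc (gcd3 m n : ℝ) * ((c : ℝ) ^ 2 * (((univ : Finset (Q4 c)).filter
          (fun q => fA q = 0 ∧ fB q = 0)).card : ℝ))
      ≤ (gcd3 m n : ℝ) * ((c : ℝ) ^ 2 * (2 * ((c : ℝ) * c.divisors.card) ^ 2)) := by gcongr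
    _ = 2 * (gcd3 m n : ℝ) * (c.divisors.card : ℝ) ^ 2 * (c : ℝ) ^ 4 := by ring

end D33K
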